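import Pool.Agent.H37Z.UB.Time

set_option autoImplicit false

/-!
# The occupation time of the origin at the critical point of `U`-bootstrap percolation

`step U A = A ∪ {x | x + X ⊆ A for some X ∈ U}`, `iter U A t = A_t`, `cl U A = [A]`, `seed ω` is the
random set `A` under the product measure `P p`, `pc U = inf {p | P_p([A] = ℤ ^ d) = 1}`,
`theta U n p = P_p(0 ∉ [A ∩ [-n, n] ^ d])` and `T U ω = min {t | 0 ∈ A_t}`.

If `0 ∉ [A]`, then the sites which can be reached from `0` by steps of bounded length outside `[A]`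
form an infinite set (a finite one would be stable).  It enters or leaves infinitely many blocks of
side `n`, so there are arbitrarily long self-avoiding paths of blocks which have in their frame a
site that is not infected from inside its own box of radius `n`.  Blocks at distance `5` are
independent, so if `n ^ (d - 1) theta U n p` is small for one `n` then `theta U n p` decays
exponentially.  This is an open condition on `p`, so it fails at the critical point and below.
-/

namespace Pool.Agent.Results.MP_28b826_pr.CriticalExpectation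

open MeasureTheory H37Z.UB

/-- **Theorem.** Let `d ≥ 2` and let `U` be a finite family of finite nonempty subsets of `ℤ ^ d`.
(1) `pc U = 1` iff there is a finite nonempty stable set.
(2) `E_{pc} T ^ (d - 1) < ∞` iff `pc U = 1`, and then it is `0`.  So for `d = 2` and `pc U < 1` the
expectation of `T` at the critical point is infinite.
(3) If `pc U < 1` then `theta U n p` does not decay exponentially for any `p ≤ pc U`; the set of `p`
with exponential decay is open; and outside this set `E_p T ^ (d - 1) = ∞`, and both `theta U n p` and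
`P_p(T > n)` are at least `c / n ^ (d - 1)` for all `n ≥ 1`, with one `c > 0` for all `p`. -/
theorem result (d : ℕ) (hd : 2 ≤ d) (U : Finset (Finset (Site d))) (hU : ∅ ∉ U) :
    (pc U = 1 ↔ ∃ F : Finset (Site d), F.Nonempty ∧ ∀ x ∈ F, ∀ X ∈ U, ∃ y ∈ X, x + y ∈ F) ∧
    (∫⁻ ω, T U ω ^ (d - 1) ∂(P (pc U)) < ⊤ ↔ pc U = 1) ∧
    (pc U = 1 → ∫⁻ ω, T U ω ^ (d - 1) ∂(P (pc U)) = 0) ∧
    (pc U < 1 →
      (∀ p ≤ pc U, ¬ ExpDecay U p) ∧ IsOpen {p | ExpDecay U p} ∧
      (∀ p, ¬ ExpDecay U p → ∫⁻ ω, T U ω ^ (d - 1) ∂(P p) = ⊤) ∧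
      ∃ c : ℝ, 0 < c ∧ ∀ p, ¬ ExpDecay U p → ∀ n : ℕ, 1 ≤ n →
        c / (n : ℝ) ^ (d - 1) ≤ theta U n p ∧
        c / (n : ℝ) ^ (d - 1) ≤ (P p {ω : Om d | (n : ENNReal) < T U ω}).toReal) := by
  have hd1 : 1 ≤ d := by omega
  have hk : 1 ≤ d - 1 := by omega
  have h1 : pc U = 1 ↔ ∃ F : Finset (Site d), F.Nonempty ∧
      ∀ x ∈ F, ∀ X ∈ U, ∃ y ∈ X, x + y ∈ F := by
    constructor
    · intro h
      by_contra hcon
      push Not at hcon
      refine (pc_lt_one (U := U) hd1 ?_).ne h
      intro F hF hne hst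
      obtain ⟨x, hx, X, hX, h2⟩ := hcon hF.toFinset (by simpa using hne)
      obtain ⟨y, hy, hy2⟩ := hst x (hF.mem_toFinset.1 hx) X hX
      exact h2 y hy (hF.mem_toFinset.2 hy2)
    · rintro ⟨F, hne, hst⟩
      exact pc_eq_one (F := (F : Set (Site d))) F.finite_toSet (by simpa using hne)
        fun x hx X hX => hst x hx X hX
  have h3 : pc U = 1 → ∫⁻ ω, T U ω ^ (d - 1) ∂(P (pc U)) = 0 := by
    intro h
    rw [h]
    exact T_one hk
  have h4 : pc U < 1 →
      (∀ p ≤ pc U, ¬ ExpDecay U p) ∧ IsOpen {p | ExpDecay U p} ∧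
      (∀ p, ¬ ExpDecay U p → ∫⁻ ω, T U ω ^ (d - 1) ∂(P p) = ⊤) ∧
      ∃ c : ℝ, 0 < c ∧ ∀ p, ¬ ExpDecay U p → ∀ n : ℕ, 1 ≤ n →
        c / (n : ℝ) ^ (d - 1) ≤ theta U n p ∧
        c / (n : ℝ) ^ (d - 1) ≤ (P p {ω : Om d | (n : ENNReal) < T U ω}).toReal := by
    intro hlt
    have hNF : ∀ F : Set (Site d), F.Finite → F.Nonempty → ¬ Stable U F :=
      fun F hF hne hst => hlt.ne (pc_eq_one hF hne hst)
    obtain ⟨c, hc, hb⟩ := lower_bounds hd1 hNF
    exact ⟨fun p hp => not_expDecay hd1 hU hNF hp, isOpen_expDecay hd1 hNF,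
      fun p hp => lintegral_eq_top hk p hc fun n hn => (hb p hp n hn).2, c, hc, hb⟩
  refine ⟨h1, ⟨fun h => ?_, fun h => ?_⟩, h3, h4⟩
  · by_contra hne
    have hlt : pc U < 1 := lt_of_le_of_ne le_top hne
    obtain ⟨h5, _, h6, _⟩ := h4 hlt
    exact h.ne (h6 _ (h5 _ le_rfl))
  · rw [h3 h]
    exact ENNReal.zero_lt_top

end Pool.Agent.Results.MP_28b826_pr.CriticalExpectation
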